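import Mathlib
import Pool.Agent.H577R3.Rig

/-!
# Finitely generated rigid metabelian groups are bi-interpretable with arithmetic

Every finitely generated non-abelian group which is universally equivalent to a free metabelian
group of rank `n ≥ 2` is bi-interpretable (with parameters) with the standard model of arithmetic.
-/

set_option autoImplicit false

namespace Pool.Agent.Results.MP_c25739_lc.RigidMetabelian

open FirstOrder FirstOrder.Language Pool.Agent.H577R3

/-- Two groups satisfy the same universal sentences of the language of groups. -/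
def UnivEq (G M : Type) [Group G] [Group M] : Prop :=
  ∀ φ : Bi.Lgrp.Sentence, BoundedFormula.IsUniversal φ →
    ((@Sentence.Realize Bi.Lgrp G (Bi.grpStr G) φ) ↔ (@Sentence.Realize Bi.Lgrp M (Bi.grpStr M) φ))

/-- A rigid metabelian group is a group with the same universal theory as the free metabelian group
of rank `n` for some `n ≥ 2`. -/
def IsRigidMetabelian (G : Type) [Group G] : Prop :=
  ∃ n : ℕ, 2 ≤ n ∧ UnivEq G (FreeGroup (Fin n) ⧸ derivedSeries (FreeGroup (Fin n)) 2)

/-- Every finitely generated non-abelian rigid metabelian group, in the language of groups, is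
bi-interpretable with `(ℕ; +, ·, 0, 1)`. -/
theorem result : ∀ (G : Type) [Group G], Group.FG G → (¬ ∀ a b : G, a * b = b * a) →
    IsRigidMetabelian G → Bi.BiInterpNat G := by
  intro G _ hfg hna ⟨n, hn, h⟩
  obtain ⟨m, k, π, hm, hπ, ⟨M⟩, hne⟩ := Pool.Agent.H54R3.Rig.rig_struct n hn G hfg hna h
  exact rig_bi M hm hπ hfg hne

end Pool.Agent.Results.MP_c25739_lc.RigidMetabelian
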